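import Pool.Agent.Helper19.HN.St
import Pool.Agent.Helper19.HN.Inp

/-! # HN, module HLO: the definable order is a wellorder of HOD -/

namespace Pool.Agent.Helper78.HN.HLO

open Ordinal Cardinal ZFSet Order Pool.Agent.Helper73.HODC Pool.Agent.Helper73.HM
open Pool.Agent.Helper73.HE Pool.Agent.Helper73.HU Pool.Agent.Helper19.HN

/-- transitivity below a rank -/
def Tr (L : ZFSet.{0} → ZFSet.{0} → Prop) (r : Ordinal.{0}) : Prop :=
  ∀ x y z, HOD x → HOD y → HOD z → x.rank < r → y.rank < r → z.rank < r →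
    L x y → L y z → L x z

/-- totality below a rank -/
def To (L : ZFSet.{0} → ZFSet.{0} → Prop) (r : Ordinal.{0}) : Prop :=
  ∀ x y, HOD x → HOD y → x.rank < r → y.rank < r → L x y ∨ x = y ∨ L y x

theorem irr {L : ZFSet.{0} → ZFSet.{0} → Prop} (hL : ∀ x y, L x y ↔ HLr L x y) (x : ZFSet.{0}) :
    ¬ L x x := by
  rw [hL]
  rintro (h | ⟨-, h | ⟨-, h | ⟨-, z, h1, h2, -⟩⟩⟩)
  · exact lt_irrefl _ h
  · exact lt_irrefl _ h
  · exact lt_irrefl _ h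
  · exact h2 h1

theorem rank_le {L : ZFSet.{0} → ZFSet.{0} → Prop} (hL : ∀ x y, L x y ↔ HLr L x y)
    {x y : ZFSet.{0}} (h : L x y) : x.rank ≤ y.rank := by
  rw [hL] at h
  rcases h with h | ⟨h, -⟩
  · exact h.le
  · exact h.le

theorem amin (f : ZFSet.{0} → Ordinal.{0}) (Q : ZFSet.{0} → Prop) (h : ∃ x, Q x) :
    ∃ x, Q x ∧ ∀ y, Q y → f x ≤ f y := by
  obtain ⟨x0, hx0⟩ := h
  obtain ⟨θ, ⟨x, hx, rfl⟩, hmin⟩ := WellFounded.has_min
    (wellFounded_lt (α := Ordinal.{0})) (f '' {x | Q x}) ⟨_, x0, hx0, rfl⟩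
  exact ⟨x, hx, fun y hy => not_lt.1 (hmin _ ⟨y, hy, rfl⟩)⟩

theorem fin_keys (a b : Ordinal.{0}) (Q : ZFSet.{0} → Prop) :
    {x : ZFSet.{0} | (HOD x ∧ Q x) ∧ key1 x = a ∧ key2 x = b}.Finite := by
  set S : Set ZFSet.{0} := {x | (HOD x ∧ Q x) ∧ key1 x = a ∧ key2 x = b} with hS
  have h5 : ∀ x : S, ∃ φ : Fm, (code φ).rank = b ∧ x.1 ∈ V_ a ∧
      ∀ y ∈ V_ a, Sat {z | z ∈ V_ a} φ (fun _ => y) ↔ y = x.1 := by
    rintro ⟨x, hx, h6, h7⟩
    have := Helper14.HM.exists_key Inp.oz (HOD.od hx.1)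
    rw [h6, h7] at this
    exact this
  choose f hf1 hf2 hf3 using h5
  have hfin' : {φ : Fm | (code φ).rank = b}.Finite := Inp.tc.2.1 _
  have : Finite {φ : Fm | (code φ).rank = b} := hfin'
  have hinj : Function.Injective
      (fun x : S => (⟨f x, hf1 x⟩ : {φ : Fm | (code φ).rank = b})) := by
    intro x y hxy
    have h8 : f x = f y := congrArg Subtype.val hxy
    apply Subtype.ext
    have h9 := (hf3 x x.1 (hf2 x)).2 rfl
    rw [h8] at h9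
    exact (hf3 y x.1 (hf2 x)).1 h9
  exact Set.finite_coe_iff.1 (Finite.of_injective _ hinj)

theorem mn {L : ZFSet.{0} → ZFSet.{0} → Prop} (hL : ∀ x y, L x y ↔ HLr L x y) {r : Ordinal.{0}}
    (hT : Tr L r) (P : ZFSet.{0} → Prop) (h0 : ∃ x, HOD x ∧ x.rank < r ∧ P x) :
    ∃ x, HOD x ∧ x.rank < r ∧ P x ∧ ∀ y, HOD y → L y x → ¬ P y := by
  obtain ⟨x1, hx1, hm1⟩ := amin ZFSet.rank (fun x => HOD x ∧ x.rank < r ∧ P x) h0
  obtain ⟨x2, ⟨hx2, e1⟩, hm2⟩ := amin key1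
    (fun x => (HOD x ∧ x.rank < r ∧ P x) ∧ x.rank = x1.rank) ⟨x1, hx1, rfl⟩
  obtain ⟨x3, ⟨⟨hx3, e2⟩, e3⟩, hm3⟩ := amin key2
    (fun x => ((HOD x ∧ x.rank < r ∧ P x) ∧ x.rank = x1.rank) ∧ key1 x = key1 x2)
    ⟨x2, ⟨hx2, e1⟩, rfl⟩
  -- the finite set
  have hfin := fin_keys (key1 x2) (key2 x3) (fun x => x.rank < r ∧ P x ∧ x.rank = x1.rank)
  set S : Set ZFSet.{0} := {x | (HOD x ∧ (x.rank < r ∧ P x ∧ x.rank = x1.rank)) ∧
    key1 x = key1 x2 ∧ key2 x = key2 x3} with hS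
  let L' : ZFSet.{0} → ZFSet.{0} → Prop := fun x y =>
    (HOD x ∧ x.rank < r) ∧ (HOD y ∧ y.rank < r) ∧ L x y
  have h1 : IsStrictOrder ZFSet.{0} L' :=
    { irrefl := fun x h => irr hL x h.2.2
      trans := fun x y z h h' => ⟨h.1, h'.2.1, hT x y z h.1.1 h.2.1.1 h'.2.1.1 h.1.2 h.2.1.2
        h'.2.1.2 h.2.2 h'.2.2⟩ }
  have h2 : S.WellFoundedOn L' := hfin.wellFoundedOn
  obtain ⟨m, -, hm⟩ := WellFounded.has_min h2 Set.univ
    ⟨⟨x3, ⟨hx3.1, hx3.2.1, hx3.2.2, e2⟩, e3, rfl⟩, trivial⟩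
  obtain ⟨⟨hm4, hm5, hm6, hm7⟩, hm8, hm9⟩ := m.2
  refine ⟨m.1, hm4, hm5, hm6, fun y hy hyL hPy => ?_⟩
  have hyr : y.rank < r := (rank_le hL hyL).trans_lt hm5
  have hq := (hL _ _).1 hyL
  rcases hq with h | ⟨h, h | ⟨h', h | ⟨h'', -⟩⟩⟩
  · rw [hm7] at h
    exact absurd h (not_lt.2 (hm1 y ⟨hy, hyr, hPy⟩))
  · rw [hm8] at h
    exact absurd h (not_lt.2 (hm2 y ⟨⟨hy, hyr, hPy⟩, by rw [← hm7]; assumption⟩))
  · rw [hm9] at h
    exact absurd h (not_lt.2 (hm3 y ⟨⟨⟨hy, hyr, hPy⟩, by rw [← hm7]; assumption⟩,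
      by rw [← hm8]; assumption⟩))
  · exact hm ⟨y, ⟨hy, hyr, hPy, by rw [← hm7]; assumption⟩, by rw [← hm8]; assumption,
      by rw [← hm9]; assumption⟩ trivial ⟨⟨hy, hyr⟩, ⟨hm4, hm5⟩, hyL⟩

theorem tr_step {L : ZFSet.{0} → ZFSet.{0} → Prop} (hL : ∀ x y, L x y ↔ HLr L x y)
    {ρ : Ordinal.{0}} (hT : Tr L ρ) (hO : To L ρ) {x y z : ZFSet.{0}} (hx : HOD x) (hy : HOD y)
    (hz : HOD z) (rx : x.rank = ρ) (ry : y.rank = ρ) (rz : z.rank = ρ) (h1 : L x y)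
    (h2 : L y z) : L x z := by
  rw [hL] at h1 h2 ⊢
  have key : ∀ u, HOD u → u.rank = ρ → ∀ w ∈ u, HOD w ∧ w.rank < ρ := fun u hu ru w hw =>
    ⟨HOD_elem hu hw, ru ▸ rank_lt_of_mem hw⟩
  rcases h1 with h | ⟨-, h1⟩
  · rw [rx, ry] at h; exact absurd h (lt_irrefl _)
  rcases h2 with h | ⟨-, h2⟩
  · rw [ry, rz] at h; exact absurd h (lt_irrefl _)
  refine Or.inr ⟨rx.trans rz.symm, ?_⟩
  rcases h1 with h1 | ⟨e1, h1⟩
  · rcases h2 with h2 | ⟨e2, -⟩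
    · exact Or.inl (h1.trans h2)
    · exact Or.inl (e2 ▸ h1)
  rcases h2 with h2 | ⟨e2, h2⟩
  · exact Or.inl (e1 ▸ h2)
  refine Or.inr ⟨e1.trans e2, ?_⟩
  rcases h1 with h1 | ⟨f1, h1⟩
  · rcases h2 with h2 | ⟨f2, -⟩
    · exact Or.inl (h1.trans h2)
    · exact Or.inl (f2 ▸ h1)
  rcases h2 with h2 | ⟨f2, h2⟩
  · exact Or.inl (f1 ▸ h2)
  refine Or.inr ⟨f1.trans f2, ?_⟩
  obtain ⟨a, ay, ax, ha⟩ := h1
  obtain ⟨b, bz, bny, hb⟩ := h2
  obtain ⟨ah, ar⟩ := key y hy ry a ay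
  obtain ⟨bh, br⟩ := key z hz rz b bz
  rcases hO a b ah bh ar br with h | h | h
  · refine ⟨a, (hb a (Or.inl ay) h).1 ay, ax, fun w hw hwa => ?_⟩
    obtain ⟨wh, wr⟩ : HOD w ∧ w.rank < ρ := by
      rcases hw with hw | hw
      · exact key x hx rx w hw
      · exact key z hz rz w hw
    have hwb : L w b := hT w a b wh ah bh wr ar br hwa h
    constructor
    · intro hwx
      have := (ha w (Or.inl hwx) hwa).1 hwx
      exact (hb w (Or.inl this) hwb).1 this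
    · intro hwz
      have := (hb w (Or.inr hwz) hwb).2 hwz
      exact (ha w (Or.inr this) hwa).2 this
  · exact absurd (h ▸ ay) bny
  · refine ⟨b, bz, fun bx => bny ((ha b (Or.inl bx) h).1 bx), fun w hw hwb => ?_⟩
    obtain ⟨wh, wr⟩ : HOD w ∧ w.rank < ρ := by
      rcases hw with hw | hw
      · exact key x hx rx w hw
      · exact key z hz rz w hw
    have hwa : L w a := hT w b a wh bh ah wr br ar hwb h
    constructor
    · intro hwx
      have := (ha w (Or.inl hwx) hwa).1 hwx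
      exact (hb w (Or.inl this) hwb).1 this
    · intro hwz
      have := (hb w (Or.inr hwz) hwb).2 hwz
      exact (ha w (Or.inr this) hwa).2 this

theorem to_step {L : ZFSet.{0} → ZFSet.{0} → Prop} (hL : ∀ x y, L x y ↔ HLr L x y)
    {ρ : Ordinal.{0}} (hT : Tr L ρ) {x y : ZFSet.{0}} (hx : HOD x) (hy : HOD y)
    (rx : x.rank = ρ) (ry : y.rank = ρ) : L x y ∨ x = y ∨ L y x := by
  rw [hL, hL]
  have key : ∀ u, HOD u → u.rank = ρ → ∀ w ∈ u, HOD w ∧ w.rank < ρ := fun u hu ru w hw =>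
    ⟨HOD_elem hu hw, ru ▸ rank_lt_of_mem hw⟩
  by_cases hxy : x = y
  · exact Or.inr (Or.inl hxy)
  rcases lt_trichotomy (key1 x) (key1 y) with h | e1 | h
  · exact Or.inl (Or.inr ⟨rx.trans ry.symm, Or.inl h⟩)
  swap
  · exact Or.inr (Or.inr (Or.inr ⟨ry.trans rx.symm, Or.inl h⟩))
  rcases lt_trichotomy (key2 x) (key2 y) with h | e2 | h
  · exact Or.inl (Or.inr ⟨rx.trans ry.symm, Or.inr ⟨e1, Or.inl h⟩⟩)
  swap
  · exact Or.inr (Or.inr (Or.inr ⟨ry.trans rx.symm, Or.inr ⟨e1.symm, Or.inl h⟩⟩))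
  have hP : ∃ w, HOD w ∧ w.rank < ρ ∧ ¬ (w ∈ x ↔ w ∈ y) := by
    by_contra hcon
    push Not at hcon
    apply hxy
    ext w
    by_cases hw : w ∈ x
    · exact hcon w (key x hx rx w hw).1 (key x hx rx w hw).2
    · by_cases hw' : w ∈ y
      · exact hcon w (key y hy ry w hw').1 (key y hy ry w hw').2
      · exact ⟨fun h => absurd h hw, fun h => absurd h hw'⟩
  obtain ⟨m, mh, mr, hm, hmin⟩ := mn hL hT (fun w => ¬ (w ∈ x ↔ w ∈ y)) hP
  have hag : ∀ w, w ∈ x ∨ w ∈ y → L w m → (w ∈ x ↔ w ∈ y) := by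
    intro w hw hwm
    have wh : HOD w := by
      rcases hw with hw | hw
      · exact (key x hx rx w hw).1
      · exact (key y hy ry w hw).1
    exact not_not.1 (hmin w wh hwm)
  by_cases hmx : m ∈ x
  · have hmy : m ∉ y := fun h => hm ⟨fun _ => h, fun _ => hmx⟩
    exact Or.inr (Or.inr (Or.inr ⟨ry.trans rx.symm, Or.inr ⟨e1.symm, Or.inr ⟨e2.symm, m, hmx, hmy,
      fun w hw hwm => (hag w hw.symm hwm).symm⟩⟩⟩))
  · have hmy : m ∈ y := by
      by_contra h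
      exact hm ⟨fun h' => absurd h' hmx, fun h' => absurd h' h⟩
    exact Or.inl (Or.inr ⟨rx.trans ry.symm, Or.inr ⟨e1, Or.inr ⟨e2, m, hmy, hmx, hag⟩⟩⟩)

theorem both {L : ZFSet.{0} → ZFSet.{0} → Prop} (hL : ∀ x y, L x y ↔ HLr L x y)
    (r : Ordinal.{0}) : Tr L r ∧ To L r := by
  induction r using WellFoundedLT.induction with
  | ind r ih =>
    refine ⟨fun x y z hx hy hz rx ry rz h1 h2 => ?_, fun x y hx hy rx ry => ?_⟩
    · have l1 := rank_le hL h1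
      have l2 := rank_le hL h2
      rcases (l1.trans l2).lt_or_eq with h | h
      · exact (hL _ _).2 (Or.inl h)
      · have e1 : x.rank = y.rank := le_antisymm l1 (h ▸ l2)
        have e2 : z.rank = y.rank := h ▸ e1
        have := ih y.rank ry
        exact tr_step hL this.1 this.2 hx hy hz e1 rfl e2 h1 h2
    · rcases lt_trichotomy x.rank y.rank with h | h | h
      · exact Or.inl ((hL _ _).2 (Or.inl h))
      · exact to_step hL (ih y.rank ry).1 hx hy h rfl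
      · exact Or.inr (Or.inr ((hL _ _).2 (Or.inl h)))

theorem hlo : StHLO := by
  intro L hL
  refine ⟨irr hL, fun x y z hx hy hz h1 h2 => ?_, fun x y hx hy => ?_, ?_⟩
  · have := (both hL (max x.rank (max y.rank z.rank) + 1)).1
    refine this x y z hx hy hz ?_ ?_ ?_ h1 h2
    · exact Order.lt_succ_of_le (le_max_left _ _)
    · exact Order.lt_succ_of_le ((le_max_left _ _).trans (le_max_right _ _))
    · exact Order.lt_succ_of_le ((le_max_right _ _).trans (le_max_right _ _))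
  · have := (both hL (max x.rank y.rank + 1)).2
    refine this x y hx hy ?_ ?_
    · exact Order.lt_succ_of_le (le_max_left _ _)
    · exact Order.lt_succ_of_le (le_max_right _ _)
  · rintro P ⟨x, hx, hP⟩
    obtain ⟨m, h1, -, h2, h3⟩ := mn hL (both hL (x.rank + 1)).1 P
      ⟨x, hx, Order.lt_succ_of_le le_rfl, hP⟩
    exact ⟨m, h1, h2, h3⟩

end Pool.Agent.Helper78.HN.HLO
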